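import Pool.Agent.W2helper81.BY.Stm

/-!
# Piece BY-GEN: generic finite étaleness in characteristic zero
-/

set_option autoImplicit false

namespace Pool.Agent.W2helper54.BY

open Polynomial Pool.Agent.W2helper81.BY

/-- A ring generated by a root of a monic polynomial, with all relations multiples of this polynomial, and with
invertible derivative, is finite and étale. -/
theorem core {R S : Type} [CommRing R] [CommRing S] [Algebra R S]
    (x : S) (P : R[X]) (hP : P.Monic) (hx : aeval x P = 0)
    (hker : ∀ q : R[X], aeval x q = 0 → P ∣ q)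
    (hsurj : Function.Surjective (aeval x : R[X] →ₐ[R] S))
    (hu : IsUnit (aeval x (derivative P))) :
    Module.Finite R S ∧ Algebra.Etale R S := by
  obtain ⟨u, hu⟩ := hu.exists_right_inv
  obtain ⟨p₁, hp₁⟩ := hsurj u
  obtain ⟨p₂, hp₂⟩ := hker (derivative P * p₁ - 1) (by simp [hp₁, hu])
  let Q : StandardEtalePair R := ⟨P, hP, 1, p₁, -p₂, 1, by linear_combination hp₂⟩
  have hm : Q.HasMap x := ⟨hx, by simp [Q]⟩
  have hQs : ∀ y : Q.Ring, ∃ q : R[X], aeval Q.X q = y := by
    intro y
    let E : StandardEtalePresentation R Q.Ring :=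
      ⟨Q, Q.X, Q.hasMap_X, by simpa [StandardEtalePair.lift_X_left] using Function.bijective_id⟩
    obtain ⟨p, n, hp⟩ := E.exists_mul_aeval_x_g_pow_eq_aeval_x y
    exact ⟨p, by simpa [E, Q] using hp.symm⟩
  have hlift : ∀ q : R[X], Q.lift x hm (aeval Q.X q) = aeval x q := by
    intro q
    rw [← aeval_algHom_apply, Q.lift_X]
  have hbij : Function.Bijective (Q.lift x hm) := by
    constructor
    · rw [injective_iff_map_eq_zero]
      intro y hy
      obtain ⟨q, rfl⟩ := hQs y
      rw [hlift] at hy
      obtain ⟨d, rfl⟩ := hker q hy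
      have := Q.hasMap_X.1
      rw [map_mul]
      change aeval Q.X Q.f * _ = 0
      rw [this, zero_mul]
    · intro s
      obtain ⟨q, rfl⟩ := hsurj s
      exact ⟨aeval Q.X q, hlift q⟩
  refine ⟨?_, ?_⟩
  · have hint : IsIntegral R x := ⟨P, hP, by simpa [aeval_def] using hx⟩
    have hfg := hint.fg_adjoin_singleton
    have htop : Algebra.adjoin R {x} = ⊤ := by
      rw [Algebra.adjoin_singleton_eq_range_aeval]
      exact (AlgHom.range_eq_top _).mpr hsurj
    rw [htop] at hfg
    exact ⟨by simpa using hfg⟩
  · exact .of_equiv (AlgEquiv.ofBijective _ hbij)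

/-- `B` is generated by one element over the fraction field of `A`. -/
theorem exists_theta {A B : Type} [CommRing A] [IsDomain A] [CharZero A] [CommRing B] [IsDomain B]
    [Algebra A B] (hinj : Function.Injective (algebraMap A B)) [Algebra.FiniteType A B]
    [Algebra.IsAlgebraic A B] :
    ∃ θ : B, ∀ b : B, ∃ a : A, a ≠ 0 ∧ ∃ q : A[X], algebraMap A B a * b = aeval θ q := by
  let K := FractionRing A
  let L := FractionRing B
  have hAL : Function.Injective (algebraMap A L) := by
    rw [IsScalarTower.algebraMap_eq A B L]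
    exact (IsFractionRing.injective B L).comp hinj
  have : Module.IsTorsionFree A L := by
    exact Module.isTorsionFree_iff_algebraMap_injective.mpr hAL
  let : Algebra K L := FractionRing.liftAlgebra A L
  have : IsScalarTower A K L := FractionRing.isScalarTower_liftAlgebra A L
  have : CharZero K := inferInstance
  have : Algebra.EssFiniteType A L := Algebra.EssFiniteType.comp A B L
  have : Algebra.EssFiniteType K L := Algebra.EssFiniteType.of_comp A K L
  have : Algebra.IsAlgebraic B L :=
    (IsFractionRing.comap_isAlgebraic_iff (A := B) (K := L) (C := L)).mpr inferInstance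
  have : Algebra.IsAlgebraic A L := Algebra.IsAlgebraic.trans A B L
  have : Algebra.IsAlgebraic K L :=
    (IsFractionRing.comap_isAlgebraic_iff (A := A) (K := K) (C := L)).mp inferInstance
  have : Module.Finite K L := Algebra.finite_of_essFiniteType_of_isAlgebraic
  obtain ⟨θ₀, hθ₀⟩ := Field.exists_primitive_element K L
  -- make `θ₀` an element of `B`
  obtain ⟨⟨b, c⟩, hbc⟩ := IsLocalization.surj (nonZeroDivisors B) θ₀
  simp only at hbc
  obtain ⟨a, ha, d, hd⟩ := (Algebra.IsAlgebraic.isAlgebraic (R := A) (c : B)).exists_nonzero_dvd c.2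
  have hθ : algebraMap A L a * θ₀ = algebraMap B L (b * d) := by
    rw [IsScalarTower.algebraMap_apply A B L, hd, map_mul, map_mul, ← hbc]; ring
  have haK : algebraMap A K a ≠ 0 := by
    rwa [Ne, IsFractionRing.to_map_eq_zero_iff]
  have htop : Algebra.adjoin K {algebraMap B L (b * d)} = ⊤ := by
    have h1 : IntermediateField.adjoin K {algebraMap B L (b * d)} = ⊤ := by
      rw [eq_top_iff, ← hθ₀, IntermediateField.adjoin_simple_le_iff]
      have h2 : algebraMap B L (b * d) ∈ IntermediateField.adjoin K {algebraMap B L (b * d)} :=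
        IntermediateField.mem_adjoin_simple_self K _
      have h3 : θ₀ = algebraMap K L (algebraMap A K a)⁻¹ * algebraMap B L (b * d) := by
        rw [← hθ, IsScalarTower.algebraMap_apply A K L, ← mul_assoc, ← map_mul,
          inv_mul_cancel₀ haK, map_one, one_mul]
      rw [h3]
      exact mul_mem (IntermediateField.algebraMap_mem _ _) h2
    exact Algebra.adjoin_eq_top_of_primitive_element (Algebra.IsAlgebraic.isAlgebraic _) h1
  refine ⟨b * d, fun b' => ?_⟩
  have hb' : algebraMap B L b' ∈ Algebra.adjoin K {algebraMap B L (b * d)} := by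
    rw [htop]; trivial
  rw [Algebra.adjoin_singleton_eq_range_aeval] at hb'
  obtain ⟨q, hq⟩ := hb'
  obtain ⟨a', ha', h⟩ := IsLocalization.integerNormalization_spec (nonZeroDivisors A) q
  refine ⟨a', nonZeroDivisors.ne_zero ha', IsLocalization.integerNormalization (nonZeroDivisors A) q, ?_⟩
  apply IsFractionRing.injective B L
  have h4 : aeval (algebraMap B L (b * d)) (a' • q) = algebraMap A L a' * algebraMap B L b' := by
    have hq' : aeval (algebraMap B L (b * d)) q = algebraMap B L b' := hq
    rw [← algebraMap_smul K a' q, map_smul, algebraMap_smul, Algebra.smul_def, hq']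
  rw [map_mul, ← aeval_algebraMap_apply, ← IsScalarTower.algebraMap_apply A B L, ← h4, ← h,
    aeval_map_algebraMap]

/-- A nonzero annihilating polynomial of least degree. -/
theorem exists_least {A B : Type} [CommRing A] [CommRing B] [Algebra A B] (θ : B) (h : IsAlgebraic A θ) :
    ∃ p : A[X], p ≠ 0 ∧ aeval θ p = 0 ∧
      ∀ q : A[X], aeval θ q = 0 → q.natDegree < p.natDegree → q = 0 := by
  classical
  have hex : ∃ n : ℕ, ∃ p : A[X], p ≠ 0 ∧ aeval θ p = 0 ∧ p.natDegree = n := by
    obtain ⟨p, hp, hp'⟩ := h
    exact ⟨_, p, hp, hp', rfl⟩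
  obtain ⟨p, hp, hp', hn⟩ := Nat.find_spec hex
  refine ⟨p, hp, hp', fun q hq hlt => ?_⟩
  by_contra h0
  rw [hn] at hlt
  exact Nat.find_min hex hlt ⟨q, h0, hq, rfl⟩

theorem exists_f {A B : Type} [CommRing A] [IsDomain A] [CharZero A] [CommRing B] [IsDomain B]
    [Algebra A B] (hinj : Function.Injective (algebraMap A B)) (hft : Algebra.FiniteType A B)
    (halg : Algebra.IsAlgebraic A B) :
    ∃ f : A, f ≠ 0 ∧ ∀ (R S : Type) [CommRing R] [Algebra A R] [CommRing S] [Algebra B S] [Algebra R S]
      [IsLocalization.Away f R] [IsLocalization.Away (algebraMap A B f) S],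
      (∀ a : A, algebraMap R S (algebraMap A R a) = algebraMap B S (algebraMap A B a)) →
      Module.Finite R S ∧ Algebra.Etale R S := by
  classical
  obtain ⟨θ, hθ⟩ := exists_theta (A := A) (B := B) hinj
  obtain ⟨p₀, hp0, hpθ, hmin⟩ := exists_least (A := A) θ (Algebra.IsAlgebraic.isAlgebraic θ)
  obtain ⟨s, hs⟩ := hft.out
  choose g hg0 q hq using hθ
  -- the derivative
  have hdeg : p₀.natDegree ≠ 0 := by
    intro h0
    obtain ⟨c, hc⟩ := natDegree_eq_zero.mp h0
    rw [← hc, aeval_C] at hpθ
    apply hp0
    rw [← hc, hinj (hpθ.trans (map_zero _).symm), C_0]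
  have hd : aeval θ (derivative p₀) ≠ 0 := by
    intro h0
    have h1 := hmin _ h0 (natDegree_derivative_lt hdeg)
    exact hdeg (derivative_eq_zero.mp h1)
  obtain ⟨a', ha', e, he⟩ := (Algebra.IsAlgebraic.isAlgebraic (R := A)
    (aeval θ (derivative p₀))).exists_nonzero_dvd (mem_nonZeroDivisors_of_ne_zero hd)
  let f : A := p₀.leadingCoeff * a' * ∏ b ∈ s, g b
  have hf : f ≠ 0 :=
    mul_ne_zero (mul_ne_zero (leadingCoeff_ne_zero.mpr hp0) ha') (Finset.prod_ne_zero_iff.mpr fun b _ => hg0 b)
  refine ⟨f, hf, ?_⟩
  intro R S _ _ _ _ _ _ _ hRS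
  have hf' : algebraMap A B f ≠ 0 := by
    rwa [Ne, map_eq_zero_iff _ hinj]
  have hAR : Function.Injective (algebraMap A R) :=
    IsLocalization.injective R (powers_le_nonZeroDivisors_of_noZeroDivisors hf)
  have hBS : Function.Injective (algebraMap B S) :=
    IsLocalization.injective S (powers_le_nonZeroDivisors_of_noZeroDivisors hf')
  have : Nontrivial S := hBS.nontrivial
  have hunit : ∀ a : A, a ∣ f → IsUnit (algebraMap A R a) := fun a ha =>
    isUnit_of_dvd_unit (map_dvd _ ha) (IsLocalization.Away.algebraMap_isUnit f)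
  have hev : ∀ p : A[X], aeval (algebraMap B S θ) (p.map (algebraMap A R)) = algebraMap B S (aeval θ p) := by
    intro p
    rw [aeval_def, eval₂_map, aeval_def, hom_eval₂]
    congr 1
    ext a
    exact hRS a
  obtain ⟨u, hu⟩ := (hunit p₀.leadingCoeff ⟨a' * ∏ b ∈ s, g b, by ring⟩).exists_left_inv
  let P : R[X] := C u * p₀.map (algebraMap A R)
  have hP : P.Monic := by
    apply monic_C_mul_of_mul_leadingCoeff_eq_one
    rw [leadingCoeff_map_of_injective hAR, hu]
  have hPx : aeval (algebraMap B S θ) P = 0 := by
    rw [map_mul, hev, hpθ, map_zero, mul_zero]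
  have hPdeg : P.natDegree ≤ p₀.natDegree := (natDegree_C_mul_le _ _).trans natDegree_map_le
  have key := core (R := R) (S := S) (algebraMap B S θ) P hP hPx ?_ ?_ ?_
  · exact key
  · -- relations
    intro w hw
    rw [← modByMonic_eq_zero_iff_dvd hP]
    have hr : aeval (algebraMap B S θ) (w %ₘ P) = 0 := by
      have h1 := congrArg (aeval (algebraMap B S θ)) (modByMonic_add_div w P)
      rw [map_add, map_mul, hPx, zero_mul, add_zero, hw] at h1
      exact h1
    obtain ⟨b, hb, hb'⟩ := IsLocalization.integerNormalization_spec (Submonoid.powers f) (w %ₘ P)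
    have h2 : aeval θ (IsLocalization.integerNormalization (Submonoid.powers f) (w %ₘ P)) = 0 := by
      apply hBS
      rw [← hev, hb', ← algebraMap_smul R b (w %ₘ P), map_smul, hr, smul_zero, map_zero]
    have hP1 : P ≠ 1 := by
      intro h
      rw [h, map_one] at hPx
      exact one_ne_zero hPx
    have h3 := hmin _ h2 (lt_of_le_of_lt (natDegree_le_natDegree
      (degree_mono (IsLocalization.integerNormalization_support (Submonoid.powers f) (w %ₘ P))))
      (lt_of_lt_of_le (natDegree_modByMonic_lt w hP hP1) hPdeg))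
    exact (IsLocalization.integerNormalization_eq_zero_iff
      (powers_le_nonZeroDivisors_of_noZeroDivisors hf) _).mp h3
  · -- surjectivity
    have hB : ∀ b : B, algebraMap B S b ∈ (aeval (algebraMap B S θ) : R[X] →ₐ[R] S).range := by
      intro b
      have hb : b ∈ Algebra.adjoin A (s : Set B) := by rw [hs]; trivial
      induction hb using Algebra.adjoin_induction with
      | mem b hb =>
        obtain ⟨v, hv⟩ := (hunit (g b) (Dvd.dvd.mul_left (Finset.dvd_prod_of_mem g hb) _)).exists_left_inv
        refine ⟨C v * (q b).map (algebraMap A R), ?_⟩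
        change aeval (algebraMap B S θ) _ = _
        rw [map_mul, hev, aeval_C, ← hq, map_mul, ← hRS, ← mul_assoc, ← map_mul, hv, map_one, one_mul]
      | algebraMap a =>
        rw [← hRS]
        exact Subalgebra.algebraMap_mem _ _
      | add x y _ _ hx hy => rw [map_add]; exact add_mem hx hy
      | mul x y _ _ hx hy => rw [map_mul]; exact mul_mem hx hy
    intro t
    obtain ⟨n, b, hb⟩ := IsLocalization.Away.surj (algebraMap A B f) t
    obtain ⟨v, hv⟩ := (hunit f dvd_rfl).exists_left_inv
    have ht : t = algebraMap R S v ^ n * algebraMap B S b := by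
      rw [← hb, ← hRS, mul_comm t, ← mul_assoc, ← mul_pow, ← map_mul, hv, map_one, one_pow, one_mul]
    have : t ∈ (aeval (algebraMap B S θ) : R[X] →ₐ[R] S).range := by
      rw [ht]
      exact mul_mem (pow_mem (Subalgebra.algebraMap_mem _ _) _) (hB b)
    exact this
  · -- derivative
    have h1 : derivative P = C u * (derivative p₀).map (algebraMap A R) := by
      rw [derivative_C_mul, derivative_map]
    rw [h1, map_mul, hev, aeval_C]
    refine IsUnit.mul ((IsUnit.of_mul_eq_one _ hu).map _) ?_
    refine isUnit_of_dvd_unit (y := algebraMap B S (algebraMap A B a')) ?_ ?_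
    · rw [he, map_mul]; exact dvd_mul_right _ _
    · rw [← hRS]
      exact (hunit a' ⟨p₀.leadingCoeff * ∏ b ∈ s, g b, by ring⟩).map _

theorem GEN_ok : P_GEN := by
  intro A B _ _ _ _ _ _ hinj hft halg
  obtain ⟨f, hf, h⟩ := exists_f hinj hft halg
  refine ⟨f, hf, ?_⟩
  let : Algebra (Localization.Away f) (Localization.Away (algebraMap A B f)) :=
    (Localization.awayMap (algebraMap A B) f).toAlgebra
  have key := h (Localization.Away f) (Localization.Away (algebraMap A B f)) (by
    intro a
    change Localization.awayMap (algebraMap A B) f (algebraMap A _ a) = _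
    exact IsLocalization.map_eq _ a)
  exact ⟨key.1, key.2⟩

end Pool.Agent.W2helper54.BY
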